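import Pool.Agent.Q54.KP.StmB
import Pool.Agent.Q102.KP.DIS
import Pool.Agent.Q102.KP.HYM
import Pool.Agent.Q102.KP.KPK
import Pool.Agent.Q102.KP.NER
import Pool.Agent.Q102.KP.SUB
import Pool.Agent.Q102.KP.TIM
import Pool.Agent.Q176.KP.ABW
import Pool.Agent.Q176.KP.PRT
import Pool.Agent.Q198.KP.FRC
import Pool.Agent.Q198.KP.LAT
import Pool.Agent.Q208.KP.Cls
import Pool.Agent.Q208.KP.Pig
import Pool.Agent.Q223.KP.ABC
import Pool.Agent.Q224.KP.DGR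
import Pool.Agent.Q224.KP.FIN
import Pool.Agent.Q241.KP.Fam
import Pool.Agent.Q241.KP.Fam12
import Pool.Agent.Q241.KP.Tri
import Pool.Agent.Q285.KP.NIJ
import Pool.Agent.Q285.KP.PM
import Pool.Agent.Q285.KP.SUP
import Pool.Agent.Q298.KP.Sig
import Pool.Agent.Q299.KP.DU1
import Pool.Agent.Q299.KP.DU2
import Pool.Agent.Q299.KP.DU3
import Pool.Agent.Q299.KP.DU4
import Pool.Agent.Q299.KP.DUA
import Pool.Agent.Q299.KP.KKT
import Pool.Agent.Q38.KP.CNC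
import Pool.Agent.Q38.KP.CPY
import Pool.Agent.Q38.KP.INC
import Pool.Agent.Q38.KP.LNK
import Pool.Agent.Q38.KP.TLC

/-!
# Project KP: all steps together
-/

set_option autoImplicit false

namespace Pool.Agent.Q54.KP

theorem t_PM : S_PM := Pool.Agent.Q285.KP.pm
theorem t_SUP : S_SUP := Pool.Agent.Q285.KP.sup t_PM
theorem t_NIJ : S_NIJ := Pool.Agent.Q285.KP.nij
theorem t_CPY : S_CPY := Pool.Agent.Q38.KP.cpy t_SUP t_NIJ
theorem t_LNK : S_LNK := Pool.Agent.Q38.KP.lnk t_SUP t_NIJ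
theorem t_PIG : S_PIG := Pool.Agent.Q208.KP.pig
theorem t_TLC : S_TLC := Pool.Agent.Q38.KP.tlc t_CPY t_NIJ
theorem t_CNC : S_CNC := Pool.Agent.Q38.KP.cnc t_NIJ
theorem t_INC : S_INC := Pool.Agent.Q38.KP.inc t_TLC t_NIJ
theorem t_PRT : S_PRT := Pool.Agent.Q176.KP.prt
theorem t_CLS : S_CLS := Pool.Agent.Q208.KP.cls t_PIG t_LNK t_INC t_CNC t_PRT
theorem t_SIG : S_SIG := Pool.Agent.Q298.KP.sig
theorem t_LAT : S_LAT := Pool.Agent.Q198.KP.lat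
theorem t_ABC : S_ABC := Pool.Agent.Q223.KP.abc t_CPY t_NIJ
theorem t_FAM1 : S_FAM1 := Pool.Agent.Q54.KP.fam1
theorem t_FAM2 : S_FAM2 := Pool.Agent.Q54.KP.fam2
theorem t_FAM : S_FAM := Pool.Agent.Q54.KP.fam t_FAM1 t_FAM2
theorem t_ABW : S_ABW := Pool.Agent.Q176.KP.abw t_CLS t_SIG t_LAT t_ABC t_FAM
theorem t_KKT : S_KKT := Pool.Agent.Q299.KP.kkt
theorem t_DIS : S_DIS := Pool.Agent.Q102.KP.dis t_CPY
theorem t_DU1 : S_DU1 := Pool.Agent.Q299.KP.du1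
theorem t_DU2 : S_DU2 := Pool.Agent.Q299.KP.du2 t_DU1
theorem t_DU3 : S_DU3 := Pool.Agent.Q299.KP.du3
theorem t_DU4 : S_DU4 := Pool.Agent.Q299.KP.du4
theorem t_DUA : S_DUA := Pool.Agent.Q299.KP.dua t_DU1 t_DU2 t_DU3 t_DU4
theorem t_FRC : S_FRC := Pool.Agent.Q198.KP.frc t_KKT t_DIS t_DUA
theorem t_HYM : S_HYM := Pool.Agent.Q102.KP.hym
theorem t_NER : S_NER := Pool.Agent.Q102.KP.ner t_FRC
theorem t_SUB : S_SUB := Pool.Agent.Q102.KP.sub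
theorem t_TIM : S_TIM := Pool.Agent.Q102.KP.tim
theorem t_KPK : S_KPK := Pool.Agent.Q102.KP.kpk t_ABW t_NER t_SUB t_TIM t_HYM
theorem t_TRI : S_TRI := Pool.Agent.Q54.KP.tri
theorem t_DGR : S_DGR := Pool.Agent.Q224.KP.dgr
theorem t_FIN : S_FIN := Pool.Agent.Q224.KP.fin t_KPK t_TRI t_DGR

end Pool.Agent.Q54.KP
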