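import Mathlib

/-!
# Project KP: definitions and basic lemmas

Goal (MP_b50c09_co): for every tripartite 3-graph `H` and every `c > 0` there are `ε > 0` and `C` such that
every 3-graph on `n` vertices whose degrees are `(1 ± ε) d`, `d ≥ c n^2`, and whose pair degrees are at least
`c n` has an `H`-packing covering all but at most `C` vertices.
-/

set_option autoImplicit false

namespace Pool.Agent.Q54.KP

open Finset

/-- number of elements with property `P` (a real number; `α` finite in all uses) -/
noncomputable def cnt {α : Type} (P : α → Prop) : ℝ := (Nat.card {x // P x} : ℝ)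

/-- number of elements of a finite type as a real number -/
noncomputable def nn (V : Type) [Fintype V] : ℝ := (Fintype.card V : ℝ)

section cnt
variable {α β : Type} [Finite α] [Finite β]

theorem cnt_eq_card [Fintype α] (P : α → Prop) [DecidablePred P] :
    cnt P = ((univ.filter P).card : ℝ) := by
  unfold cnt
  rw [Nat.card_eq_fintype_card, Fintype.card_subtype]

theorem cnt_nonneg (P : α → Prop) : 0 ≤ cnt P := Nat.cast_nonneg _

theorem cnt_mono {P Q : α → Prop} (h : ∀ x, P x → Q x) : cnt P ≤ cnt Q := by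
  unfold cnt
  exact_mod_cast Nat.card_le_card_of_injective (Subtype.map id h)
    (Subtype.map_injective h Function.injective_id)

theorem cnt_congr {P Q : α → Prop} (h : ∀ x, P x ↔ Q x) : cnt P = cnt Q :=
  le_antisymm (cnt_mono fun x => (h x).1) (cnt_mono fun x => (h x).2)

theorem cnt_le_nn [Fintype α] (P : α → Prop) : cnt P ≤ nn α := by
  classical
  rw [cnt_eq_card, nn]
  exact_mod_cast Finset.card_le_univ _

theorem cnt_true [Fintype α] : cnt (fun _ : α => True) = nn α := by
  classical
  rw [cnt_eq_card, nn]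
  simp

/-- injective images -/
theorem cnt_le_of_inj {P : α → Prop} {Q : β → Prop} (f : α → β) (hf : Function.Injective f)
    (h : ∀ x, P x → Q (f x)) : cnt P ≤ cnt Q := by
  unfold cnt
  exact_mod_cast Nat.card_le_card_of_injective (Subtype.map f h) (Subtype.map_injective h hf)

theorem cnt_equiv (e : α ≃ β) (P : β → Prop) : cnt (fun x => P (e x)) = cnt P := by
  apply le_antisymm
  · exact cnt_le_of_inj e e.injective fun x hx => hx
  · exact cnt_le_of_inj e.symm e.symm.injective fun x hx => by simpa using hx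

theorem cnt_or_le (P Q : α → Prop) : cnt (fun x => P x ∨ Q x) ≤ cnt P + cnt Q := by
  classical
  haveI := Fintype.ofFinite α
  rw [cnt_eq_card, cnt_eq_card, cnt_eq_card, Finset.filter_or]
  exact_mod_cast Finset.card_union_le _ _

/-- `|P| ≤ |P and not Q| + |Q|` -/
theorem cnt_le_and_not_add (P Q : α → Prop) : cnt P ≤ cnt (fun x => P x ∧ ¬ Q x) + cnt Q := by
  refine (cnt_mono (Q := fun x => (P x ∧ ¬ Q x) ∨ Q x) ?_).trans (cnt_or_le _ _)
  intro x hx
  by_cases hq : Q x
  · exact Or.inr hq
  · exact Or.inl ⟨hx, hq⟩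

/-- fibration of a count over the first coordinate -/
theorem cnt_prod [Fintype α] (P : α → β → Prop) :
    cnt (fun p : α × β => P p.1 p.2) = ∑ a, cnt (fun b => P a b) := by
  classical
  haveI := Fintype.ofFinite β
  simp only [cnt_eq_card]
  rw [← Nat.cast_sum]
  congr 1
  rw [← Finset.card_sigma]
  apply Finset.card_bij' (fun (p : α × β) _ => (⟨p.1, p.2⟩ : Σ _ : α, β))
    (fun (q : Σ _ : α, β) _ => (q.1, q.2)) <;> simp

/-- as an indicator sum -/
theorem cnt_eq_sum [Fintype α] (P : α → Prop) [DecidablePred P] :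
    cnt P = ∑ a, if P a then (1 : ℝ) else 0 := by
  rw [cnt_eq_card, Finset.card_filter]
  push_cast
  rfl

end cnt

section defs
variable {V : Type} [DecidableEq V]

/-- `{x, y, z}` is an edge -/
def ed (E : Finset (Finset V)) (x y z : V) : Prop := ({x, y, z} : Finset V) ∈ E

/-- twice the degree -/
noncomputable def dg2 (E : Finset (Finset V)) (v : V) : ℝ :=
  cnt (fun p : V × V => ed E v p.1 p.2)

/-- all edges have three vertices and all pairs have degree at least `c n` -/
def Cod [Fintype V] (E : Finset (Finset V)) (c : ℝ) : Prop :=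
  (∀ e ∈ E, e.card = 3) ∧ ∀ x y : V, x ≠ y → c * nn V ≤ cnt (fun z => ed E x y z)

/-- the hypotheses: almost regular with large pair degrees (`D` is twice the degree) -/
structure Hy [Fintype V] (E : Finset (Finset V)) (c ε D : ℝ) : Prop where
  cod : Cod E c
  Dlo : 2 * c * nn V ^ 2 ≤ D
  dlo : ∀ v, (1 - ε) * D ≤ dg2 E v
  dhi : ∀ v, dg2 E v ≤ (1 + ε) * D

/-- `κ` is a copy of the complete tripartite 3-graph with parts of size `t` -/
def Ck (E : Finset (Finset V)) (t : ℕ) (κ : Fin 3 × Fin t → V) : Prop :=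
  Function.Injective κ ∧ ∀ i j k : Fin t, ed E (κ (0, i)) (κ (1, j)) (κ (2, k))

/-- `X` is the disjoint union of the vertex sets of copies -/
def Til (E : Finset (Finset V)) (t : ℕ) (X : Finset V) : Prop :=
  ∃ P : Finset (Finset V), (∀ K ∈ P, ∃ κ, Ck E t κ ∧ univ.image κ = K) ∧
    (∀ K ∈ P, ∀ K' ∈ P, K ≠ K' → Disjoint K K') ∧ P.biUnion id = X

/-- the tuple `f` connects `u` and `v`: both `f ∪ {u}` and `f ∪ {v}` can be tiled -/
def RS (E : Finset (Finset V)) (t : ℕ) {ι : Type} [Fintype ι] (u v : V) (f : ι → V) : Prop :=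
  Function.Injective f ∧ (∀ i, f i ≠ u) ∧ (∀ i, f i ≠ v) ∧
    Til E t (insert u (univ.image f)) ∧ Til E t (insert v (univ.image f))

/-- `u` and `v` are `(β, ι)`-reachable -/
def Rc [Fintype V] (E : Finset (Finset V)) (t : ℕ) (ι : Type) [Fintype ι] (β : ℝ) (u v : V) : Prop :=
  β * nn V ^ (Fintype.card ι) ≤ cnt (fun f : ι → V => RS E t u v f)

/-- common link of `u` and `v` (ordered pairs) -/
noncomputable def lk (E : Finset (Finset V)) (u v : V) : ℝ :=
  cnt (fun p : V × V => ed E u p.1 p.2 ∧ ed E v p.1 p.2)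

theorem ed_comm12 (E : Finset (Finset V)) (x y z : V) : ed E x y z ↔ ed E y x z := by
  unfold ed
  rw [Finset.insert_comm]

theorem ed_comm23 (E : Finset (Finset V)) (x y z : V) : ed E x y z ↔ ed E x z y := by
  unfold ed
  rw [Finset.pair_comm y z]

theorem ed_ne {E : Finset (Finset V)} (hE : ∀ e ∈ E, e.card = 3) {x y z : V} (h : ed E x y z) :
    x ≠ y ∧ x ≠ z ∧ y ≠ z := by
  have h3 := hE _ h
  refine ⟨?_, ?_, ?_⟩ <;> rintro rfl
  · rw [Finset.insert_eq_of_mem (by simp)] at h3
    have := Finset.card_le_two (a := x) (b := z)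
    omega
  · have : ({x, y, x} : Finset V) = {x, y} := by ext; simp; tauto
    rw [this] at h3
    have := Finset.card_le_two (a := x) (b := y)
    omega
  · have : ({x, y, y} : Finset V) = {x, y} := by ext; simp
    rw [this] at h3
    have := Finset.card_le_two (a := x) (b := y)
    omega

theorem til_empty (E : Finset (Finset V)) (t : ℕ) : Til E t ∅ :=
  ⟨∅, by simp, by simp, by simp⟩

theorem til_copy {E : Finset (Finset V)} {t : ℕ} {κ : Fin 3 × Fin t → V} (h : Ck E t κ) :
    Til E t (univ.image κ) :=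
  ⟨{univ.image κ}, by simpa using ⟨κ, h, rfl⟩, by simp, by simp⟩

theorem til_union {E : Finset (Finset V)} {t : ℕ} {X Y : Finset V} (hX : Til E t X)
    (hY : Til E t Y) (h : Disjoint X Y) : Til E t (X ∪ Y) := by
  obtain ⟨P, h1, h2, h3⟩ := hX
  obtain ⟨Q, k1, k2, k3⟩ := hY
  have hP : ∀ K ∈ P, K ⊆ X := fun K hK => by
    rw [← h3]; exact Finset.subset_biUnion_of_mem id hK
  have hQ : ∀ K ∈ Q, K ⊆ Y := fun K hK => by
    rw [← k3]; exact Finset.subset_biUnion_of_mem id hK
  refine ⟨P ∪ Q, ?_, ?_, ?_⟩
  · intro K hK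
    rcases Finset.mem_union.1 hK with hK | hK
    · exact h1 K hK
    · exact k1 K hK
  · intro K hK K' hK' hne
    rcases Finset.mem_union.1 hK with hK | hK <;> rcases Finset.mem_union.1 hK' with hK' | hK'
    · exact h2 K hK K' hK' hne
    · exact Finset.disjoint_of_subset_left (hP K hK) (Finset.disjoint_of_subset_right (hQ K' hK') h)
    · exact (Finset.disjoint_of_subset_left (hP K' hK')
        (Finset.disjoint_of_subset_right (hQ K hK) h)).symm
    · exact k2 K hK K' hK' hne
  · rw [Finset.union_biUnion, h3, k3]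

/-- disjoint unions of families -/
theorem til_biUnion {E : Finset (Finset V)} {t : ℕ} {J : Type} [DecidableEq J] (s : Finset J)
    (X : J → Finset V) (h : ∀ j ∈ s, Til E t (X j))
    (hd : ∀ i ∈ s, ∀ j ∈ s, i ≠ j → Disjoint (X i) (X j)) : Til E t (s.biUnion X) := by
  induction s using Finset.induction_on with
  | empty => simpa using til_empty E t
  | insert a s ha ih =>
    rw [Finset.biUnion_insert]
    refine til_union (h a (by simp)) (ih (fun j hj => h j (by simp [hj])) ?_) ?_
    · intro i hi j hj hij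
      exact hd i (by simp [hi]) j (by simp [hj]) hij
    · rw [Finset.disjoint_biUnion_right]
      intro j hj
      exact hd a (by simp) j (by simp [hj]) (by rintro rfl; exact ha hj)

theorem RS_symm {E : Finset (Finset V)} {t : ℕ} {ι : Type} [Fintype ι] {u v : V} {f : ι → V}
    (h : RS E t u v f) : RS E t v u f := ⟨h.1, h.2.2.1, h.2.1, h.2.2.2.2, h.2.2.2.1⟩

theorem Rc_symm [Fintype V] {E : Finset (Finset V)} {t : ℕ} {ι : Type} [Fintype ι] {β : ℝ} {u v : V}
    (h : Rc E t ι β u v) : Rc E t ι β v u := by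
  unfold Rc at h ⊢
  exact h.trans (cnt_mono fun f hf => RS_symm hf)

/-- the index type of the tuples only matters up to bijection -/
theorem Rc_equiv [Fintype V] {E : Finset (Finset V)} {t : ℕ} {ι ι' : Type} [Fintype ι] [Fintype ι']
    (e : ι ≃ ι') {β : ℝ} {u v : V} (h : Rc E t ι β u v) : Rc E t ι' β u v := by
  unfold Rc at h ⊢
  rw [← Fintype.card_congr e]
  refine h.trans (cnt_le_of_inj (fun f => f ∘ e.symm) ?_ ?_)
  · intro f g hfg
    funext i
    have := congrFun hfg (e i)
    simpa using this
  · intro f hf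
    have him : univ.image (f ∘ e.symm) = univ.image f := by
      ext x
      simp only [Finset.mem_image, Finset.mem_univ, true_and, Function.comp]
      constructor
      · rintro ⟨i, rfl⟩; exact ⟨_, rfl⟩
      · rintro ⟨i, rfl⟩; exact ⟨e i, by simp⟩
    refine ⟨hf.1.comp e.symm.injective, fun i => hf.2.1 _, fun i => hf.2.2.1 _, ?_, ?_⟩
    · rw [him]; exact hf.2.2.2.1
    · rw [him]; exact hf.2.2.2.2

end defs

/-! ### the final statement -/

/-- the 3-graph `H` on `W` is tripartite: the vertices can be split into three parts such that every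
edge has exactly one vertex in each part -/
def Tripartite {W : Type} [DecidableEq W] (H : Finset (Finset W)) : Prop :=
  ∃ f : W → Fin 3, ∀ e ∈ H, ∀ i : Fin 3, (e.filter (fun v => f v = i)).card = 1

/-- `φ` is a copy of `H` in `E` -/
def IsCopy {W V : Type} (H : Finset (Finset W)) (E : Finset (Finset V)) (φ : W ↪ V) : Prop :=
  ∀ e ∈ H, e.map φ ∈ E

/-- the degree of a vertex -/
def deg {V : Type} [DecidableEq V] (E : Finset (Finset V)) (v : V) : ℕ :=
  (E.filter (fun e => v ∈ e)).card

/-- the degree of a pair -/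
def pdeg {V : Type} [DecidableEq V] (E : Finset (Finset V)) (u v : V) : ℕ :=
  (E.filter (fun e => u ∈ e ∧ v ∈ e)).card

/-- `P` is a packing of copies of `H` in `E` covering all but at most `C` vertices -/
def Packs {W V : Type} [Fintype W] [Fintype V] [DecidableEq V] (H : Finset (Finset W))
    (E : Finset (Finset V)) (C : ℕ) : Prop :=
  ∃ P : Finset (W ↪ V), (∀ φ ∈ P, IsCopy H E φ) ∧
    (∀ φ ∈ P, ∀ ψ ∈ P, φ ≠ ψ → Disjoint (univ.map φ) (univ.map ψ)) ∧
    (univ.filter (fun v => ∀ φ ∈ P, v ∉ univ.map φ)).card ≤ C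

end Pool.Agent.Q54.KP
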