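import Pool.Agent.Q54.KP.Def

/-!
# Project KP, part A: supersaturation, reachability, the absorbing set

`n = nn V`. All counts are `cnt`; useful lemmas on `cnt`, `Til`, `Rc` are in `Def.lean`. In all statements
`t ≥ 1` (or `t ≥ 2`) is the size of the parts of the tile, a tile has `3 t` vertices.
-/

set_option autoImplicit false

namespace Pool.Agent.Q54.KP

open Finset

/-- PM (power mean). `cnt (p, f) = ∑ p, (d p)^m` with `d p = cnt (G p)`, and
`∑ p, (d p)^m ≥ |P| (∑ d p / |P|)^m ≥ |P| (ρ |Q|)^m` (the Mathlib lemma is called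
`inner_le_nnorm...`-free: search for `pow_sum_div_card_le_sum_pow` or `inner_pow`; `m = 0` is trivial).
`P` empty: both sides are `0`. -/
def S_PM : Prop := ∀ (P Q : Type) [Fintype P] [Fintype Q] (G : P → Q → Prop) (m : ℕ) (ρ : ℝ), 0 ≤ ρ →
  ρ * nn P * nn Q ≤ cnt (fun x : P × Q => G x.1 x.2) →
  ρ ^ m * nn P * nn Q ^ m ≤ cnt (fun x : P × (Fin m → Q) => ∀ i, G x.1 (x.2 i))

/-- SUP (supersaturation). Apply `PM` three times: with `P = V × V ∋ (y, z)`, `Q = V ∋ x`, `m = a` (density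
`ρ^a`), then `P = (Fin a → V) × V ∋ (x, z)`, `Q = V ∋ y`, `G (x, z) y = ∀ i, A (x i) y z`, `m = b` (density
`ρ^(a b)`), then `P = (Fin a → V) × (Fin b → V)`, `Q = V ∋ z`, `m = c`. -/
def S_SUP : Prop := ∀ (V : Type) [Fintype V] (A : V → V → V → Prop) (a b c : ℕ) (ρ : ℝ), 0 ≤ ρ →
  ρ * nn V ^ 3 ≤ cnt (fun p : V × V × V => A p.1 p.2.1 p.2.2) →
  ρ ^ (a * b * c) * nn V ^ (a + b + c) ≤
    cnt (fun q : (Fin a → V) × (Fin b → V) × (Fin c → V) => ∀ i j k, A (q.1 i) (q.2.1 j) (q.2.2 k))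

/-- NIJ (degenerate functions are rare). Not injective: there are `i ≠ j` with `f i = f j`; for given
`i ≠ j` there are `n^(|ι|-1)` such functions. Second part: for given `i` there are `|X| n^(|ι|-1)`
functions with `f i ∈ X`. -/
def S_NIJ : Prop := ∀ (V ι : Type) [Fintype V] [DecidableEq V] [Fintype ι],
  cnt (fun f : ι → V => ¬ Function.Injective f) * nn V ≤ nn ι ^ 2 * nn V ^ (Fintype.card ι) ∧
  ∀ X : Finset V, cnt (fun f : ι → V => ∃ i, f i ∈ X) * nn V ≤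
    nn ι * X.card * nn V ^ (Fintype.card ι)

/-- CPY (many copies with all their edges in the dense triple relation `A`). `SUP` with
`a = b = c = t` gives `ρ^(t^3) n^(3 t)` triples of functions, i.e. functions `κ : Fin 3 × Fin t → V`
(`κ (0, i) = x i`, `κ (1, j) = y j`, `κ (2, k) = z k`; for `t = 0` everything is trivial); by `NIJ` all
but `9 t^2 n^(3 t - 1)` of them are injective. `ρ' = ρ^(t^3) / 2`. -/
def S_CPY : Prop := ∀ (t : ℕ) (ρ : ℝ), 1 ≤ t → 0 < ρ → ∃ ρ' : ℝ, 0 < ρ' ∧ ∃ n0 : ℕ,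
  ∀ (V : Type) [Fintype V] [DecidableEq V] (E : Finset (Finset V)) (A : V → V → V → Prop),
  (∀ x y z, A x y z → ed E x y z) → n0 ≤ Fintype.card V →
  ρ * nn V ^ 3 ≤ cnt (fun p : V × V × V => A p.1 p.2.1 p.2.2) →
  ρ' * nn V ^ (3 * t) ≤ cnt (fun κ : Fin 3 × Fin t → V => Ck E t κ ∧
    ∀ i j k : Fin t, A (κ (0, i)) (κ (1, j)) (κ (2, k)))

/-- LNK. Let `A w x y` be `ed E w x y ∧ ed E u x y ∧ ed E v x y`. For each of the `β' n^2` pairs `(x, y)` in
the common link `x ≠ y` (`ed_ne`), so there are `≥ c n` vertices `w` by `Cod`: `cnt A ≥ β' c n^3`. `SUP`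
with `a = t - 1`, `b = c = t`: `(β' c)^((t-1) t t) n^(3 t - 1)` triples `(w, x, y)` of functions, i.e.
functions on `Fin (t-1) ⊕ Fin t ⊕ Fin t`; by `NIJ` most of them are injective and avoid `u, v`. Then
`{u} ∪ image` is the image of the copy `κ (0, 0) = u`, `κ (0, i+1) = w i`, `κ (1, j) = x j`,
`κ (2, k) = y k`; the same for `v` (`til_copy`). `Rc_equiv` for the index type. -/
def S_LNK : Prop := ∀ (t : ℕ) (c β' : ℝ), 2 ≤ t → 0 < c → 0 < β' → ∃ β : ℝ, 0 < β ∧ ∃ n0 : ℕ,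
  ∀ (V : Type) [Fintype V] [DecidableEq V] (E : Finset (Finset V)), Cod E c → n0 ≤ Fintype.card V →
  ∀ u v : V, u ≠ v → β' * nn V ^ 2 ≤ lk E u v → Rc E t (Fin (3 * t - 1)) β u v

/-- PIG. `dg2 E u ≥ c n (n - 1) ≥ (c/2) n^2` (`Cod`: sum over `x ≠ u`). Let `q + 1 ≥ 4/c` and
`β' ≤ 1/(q+1)^2`. If `q + 1` vertices had pairwise `lk < β' n^2`, then (inclusion-exclusion inside `V × V`)
`(q+1)(c/2) n^2 - (q+1)^2 β' n^2/2 ≤ n^2`, i.e. `2 - 1/2 ≤ 1`. Second part: `∑_v lk E u v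
= ∑_{(x,y) in the link of u} cnt (fun v => ed E v x y) ≥ (c/2) n^2 c n`, and the sum is at most
`n^2 · cnt (v ≠ u, β' n^2 ≤ lk) + n^2 + n β' n^2`; with `β' ≤ c^2/8` and `n` large the number of such `v`
is at least `δ n`, `δ = c^2/8`. -/
def S_PIG : Prop := ∀ c : ℝ, 0 < c → c < 1 → ∃ q : ℕ, 1 ≤ q ∧ ∃ β' : ℝ, 0 < β' ∧ ∃ δ : ℝ, 0 < δ ∧
  ∃ n0 : ℕ, ∀ (V : Type) [Fintype V] [DecidableEq V] (E : Finset (Finset V)), Cod E c →
  n0 ≤ Fintype.card V →
  (∀ s : Finset V, s.card = q + 1 → ∃ u ∈ s, ∃ v ∈ s, u ≠ v ∧ β' * nn V ^ 2 ≤ lk E u v) ∧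
  (∀ u : V, δ * nn V ≤ cnt (fun v => v ≠ u ∧ β' * nn V ^ 2 ≤ lk E u v))

/-- TLC (many tuples which can be tiled). Induction on `s`. `s = 0`: `cnt ed ≥ n c n (n-1)/…≥ (c/2) n^3` and
`CPY` with `A = ed E`; a copy is a function `Fin 3 × Fin t → V`, transport it to `Fin (3 t 2^0)`
(`cnt_le_of_inj`; `til_copy`). Step: concatenate two tuples; remove the non-injective concatenations
(`NIJ`); the two images are disjoint (`til_union`). -/
def S_TLC : Prop := ∀ (t : ℕ) (c : ℝ) (s : ℕ), 1 ≤ t → 0 < c → ∃ τ : ℝ, 0 < τ ∧ ∃ n0 : ℕ,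
  ∀ (V : Type) [Fintype V] [DecidableEq V] (E : Finset (Finset V)), Cod E c → n0 ≤ Fintype.card V →
  τ * nn V ^ (3 * t * 2 ^ s) ≤ cnt (fun f : Fin (3 * t * 2 ^ s) → V =>
    Function.Injective f ∧ Til E t (univ.image f))

/-- CNC (concatenation). For each of the `≥ ε n` vertices `w` take a tuple `f` connecting `u, w` and a
tuple `g` connecting `w, v`; the function `(f, w, g)` on `Fin m1 ⊕ Unit ⊕ Fin m2`: there are
`ε β1 β2 n^(m1+m2+1)` of them, and by `NIJ` all but `O(n^(m1+m2))` are injective and avoid `u, v`. Then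
`{u} ∪ f ∪ {w} ∪ g = ({u} ∪ f) ∪ ({w} ∪ g)` and `{v} ∪ f ∪ {w} ∪ g = ({w} ∪ f) ∪ ({v} ∪ g)`
(`til_union`). `Rc_equiv`. -/
def S_CNC : Prop := ∀ (t m1 m2 : ℕ) (β1 β2 ε : ℝ), 0 < β1 → 0 < β2 → 0 < ε → ∃ β : ℝ, 0 < β ∧
  ∃ n0 : ℕ, ∀ (V : Type) [Fintype V] [DecidableEq V] (E : Finset (Finset V)), n0 ≤ Fintype.card V →
  ∀ u v : V, u ≠ v →
  ε * nn V ≤ cnt (fun w => w ≠ u ∧ w ≠ v ∧ Rc E t (Fin m1) β1 u w ∧ Rc E t (Fin m2) β2 w v) →
  Rc E t (Fin (m1 + m2 + 1)) β u v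

/-- INC (longer tuples). Concatenate a tuple connecting `u, v` (on `Fin (3 t 2^s - 1)`) with a tuple of
`TLC` for `s` (on `Fin (3 t 2^s)`); injective and avoiding `u, v` by `NIJ`; `til_union`. Total length
`3 t 2^(s+1) - 1`. -/
def S_INC : Prop := ∀ (t : ℕ) (c : ℝ) (s : ℕ) (β : ℝ), 1 ≤ t → 0 < c → 0 < β → ∃ β' : ℝ, 0 < β' ∧
  ∃ n0 : ℕ, ∀ (V : Type) [Fintype V] [DecidableEq V] (E : Finset (Finset V)), Cod E c →
  n0 ≤ Fintype.card V → ∀ u v : V, u ≠ v → Rc E t (Fin (3 * t * 2 ^ s - 1)) β u v →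
  Rc E t (Fin (3 * t * 2 ^ (s + 1) - 1)) β' u v

/-- PRT (abstract partition into closed classes). `ε = δ/(4 q^2)` (at most), `n` large.
Let `a s` be the largest size of a set of vertices pairwise not related by `R s`; `a 0 ≤ q`, `a s ≥ 1`
(`V` nonempty), `a (s+1) ≤ a s`. So there is `s ≤ q - 1` with `a s = a (s+1) = d`. Take
`v_1, ..., v_d` pairwise not `R (s+1)`-related. For a vertex `u` let `J u` be the set of `j` with `u = v_j`
or `R s u v_j`; `J u` is not empty (`a s = d`, the `v_j` are not `R s`-related). `V0 = {u : |J u| ≥ 2}`: for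
`i ≠ j` there are less than `ε n` vertices `w ≠ v_i, v_j` related to both (otherwise `R (s+1) v_i v_j`), and
`v_i` is not related to `v_j`; so `|V0| ≤ q^2 ε n ≤ δ n/4`. A clean vertex `u ∉ V0` gets the class `j`,
`J u = {j}`. (i) clean `u ≠ u'` in the class `j` satisfy `R s u u'`: otherwise `u, u'` and the `v_i`, `i ≠ j`,
are `d + 1` vertices pairwise not `R s`-related. (ii) `u ∈ V0` has `≥ δ n - δ n/4 ≥ δ n/2` clean
`R 0`-neighbours, hence at least `δ n/(2 q)` of them in one class `j`; this is the class of `u`. For clean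
`u' ` in the class `j`: the `≥ δ n/(2q) - 1 ≥ ε n` vertices `w ≠ u'` satisfy `R s u w` (monotone) and
`R s w u'`, so `R (s+1) u u'`. (iii) `u, u' ∈ V0` of the class `j`: the same with `R (s+1) w u'` from (ii):
`R (s+2) u u'`. As `s + 2 ≤ q + 1` all pairs in a class are `R (q+2)`-related. (iv) The class `j` contains
the clean `R 0`-neighbours of `v_j`: at least `δ n/2`. -/
def S_PRT : Prop := ∀ (q : ℕ) (δ : ℝ), 1 ≤ q → 0 < δ → ∃ ε : ℝ, 0 < ε ∧ ∃ n0 : ℕ,
  ∀ (V : Type) [Fintype V] (R : ℕ → V → V → Prop), n0 ≤ Fintype.card V →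
  (∀ s u v, R s u v → R s v u) →
  (∀ s ≤ q + 1, ∀ u v, u ≠ v → R s u v → R (s + 1) u v) →
  (∀ s ≤ q + 1, ∀ u v, u ≠ v → ε * nn V ≤ cnt (fun w => w ≠ u ∧ w ≠ v ∧ R s u w ∧ R s w v) →
    R (s + 1) u v) →
  (∀ A : Finset V, A.card = q + 1 → ∃ u ∈ A, ∃ v ∈ A, u ≠ v ∧ R 0 u v) →
  (∀ u, δ * nn V ≤ cnt (fun v => v ≠ u ∧ R 0 u v)) →
  ∃ d ≤ q, ∃ cl : V → Fin d, (∀ j, δ / 2 * nn V ≤ cnt (fun v => cl v = j)) ∧
    ∀ u v, u ≠ v → cl u = cl v → R (q + 2) u v

/-- CLS. `q, β', δ` from `PIG`, `ε` from `PRT`; `β 0` from `LNK`; then recursively `β (s+1)` is the minimum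
of the constants of `INC` (for `s`, `β s`) and `CNC` (for `m1 = m2 = 3 t 2^s - 1`, `β1 = β2 = β s`, `ε`;
`m1 + m2 + 1 = 3 t 2^(s+1) - 1`; cast the `Fin`), `n0` the maximum of all `n0` for `s ≤ q + 2`.
`R s u v := Rc E t (Fin (3 t 2^s - 1)) (β s) u v`; but for `R 0` note that `PRT` wants the two properties of
`R 0`, which follow from `PIG` and `LNK`. `m = 3 t 2^(q+2) - 1`. -/
def S_CLS : Prop := ∀ (t : ℕ) (c : ℝ), 2 ≤ t → 0 < c → c < 1 → ∃ q : ℕ, ∃ δ : ℝ, 0 < δ ∧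
  ∃ β : ℝ, 0 < β ∧ ∃ m : ℕ, ∃ n0 : ℕ,
  ∀ (V : Type) [Fintype V] [DecidableEq V] (E : Finset (Finset V)), Cod E c → n0 ≤ Fintype.card V →
  ∃ d ≤ q, ∃ cl : V → Fin d, (∀ j, δ * nn V ≤ cnt (fun v => cl v = j)) ∧
    ∀ u v, u ≠ v → cl u = cl v → Rc E t (Fin m) β u v

/-- SIG (a dense type `(a, a, σ a)` for every class). There are `≥ δ n (δ n - 1)` ordered pairs `x ≠ y` in
the class `a`, each with `≥ c n` third vertices: `≥ (c δ^2/2) n^3` triples; one of the `d ≤ q` classes `b`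
contains the third vertex of at least `c δ^2/(2 q) n^3` of them. -/
def S_SIG : Prop := ∀ (c δ : ℝ) (q : ℕ), 0 < c → 0 < δ → ∃ τ : ℝ, 0 < τ ∧ ∃ n0 : ℕ,
  ∀ (V : Type) [Fintype V] [DecidableEq V] (E : Finset (Finset V)), Cod E c → n0 ≤ Fintype.card V →
  ∀ d ≤ q, ∀ cl : V → Fin d, (∀ j, δ * nn V ≤ cnt (fun v => cl v = j)) →
  ∃ σ : Fin d → Fin d, ∀ a, τ * nn V ^ 3 ≤
    cnt (fun p : V × V × V => ed E p.1 p.2.1 p.2.2 ∧ cl p.1 = a ∧ cl p.2.1 = a ∧ cl p.2.2 = σ a)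

/-- LAT (arithmetic). For one `(d, σ, a)`: let `a_i = σ^i a` and `T_i = t (2 e_{a_i} + e_{a_{i+1}})`. Then
`∑_{i<k} (-1)^i 2^(k-1-i) T_i = t (2^k e_{a_0} + (-1)^(k-1) e_{a_k})`. By the pigeonhole principle
`a_j = a_k` for some `j < k ≤ d`; subtract (`k - j` even) or add (`k - j` odd) the two identities:
`t (2^k ∓ 2^j) e_a` is an integral combination of the vectors `t (2 e_e + e_{σ e})`; move the negative
coefficients to the other side: this is the identity with `N' = t (2^k ∓ 2^j) > 0`. (Or: the matrix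
`2 + P_σ` is invertible over the rationals, since `2 v_b + v_{σ b} = 0` for all `b` forces `v = 0`, look at
the largest `|v_b|`; so some positive multiple of `t e_a` is an integral combination.) Multiples of `N'`:
multiply `x, y` by the same number; take `N` = the product of all `N'` over the finitely many
`(d, σ, a)`, `d ≤ q`. Finally add the same number to `x e_0` and `y e_0` (one index `e_0`) to make
`∑ x = X`, `X` the maximum over all `(d, σ, a)`. -/
def S_LAT : Prop := ∀ (q t : ℕ), 1 ≤ t → ∃ N : ℕ, 0 < N ∧ ∃ X : ℕ, ∀ d ≤ q, ∀ (σ : Fin d → Fin d)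
  (a : Fin d), ∃ x y : Fin d → ℕ, ∑ e, x e = X ∧ ∀ b : Fin d,
    (if b = a then N else 0) + ∑ e, x e * (t * (2 * (if b = e then 1 else 0) + (if b = σ e then 1 else 0)))
      = ∑ e, y e * (t * (2 * (if b = e then 1 else 0) + (if b = σ e then 1 else 0)))

/-- ABC (many absorbers for every `N`-tuple in a class). Let `x, y` be the functions of `LAT`;
`PA = Σ e, Fin (x e) × (Fin 3 × Fin t)`, `PB = Σ e, Fin (y e) × (Fin 3 × Fin t)`; the class of the position
`(e, r, (i, s))` is `σ e` if `i = 2`, else `e`. The identity says that there is a bijection `π` from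
`Fin N ⊕ PA` (the positions in `Fin N` have class `a`) to `PB` which preserves classes; `|PA| = 3 t X`,
`|PB| = N + 3 t X`. Consider functions `(fA, fB, g)`, `fA : PA → V`, `fB : PB → V`,
`g : (Fin N ⊕ PA) × Fin m → V`, such that: every block `fA (e, r, ·)`, `fB (e, r, ·)` is a copy (`Ck`) with
the vertices `(0, ·), (1, ·)` in the class `e` and `(2, ·)` in the class `σ e`; `S, fA, fB` are jointly
injective; for every `p ∈ Fin N ⊕ PA` the function `g (p, ·)` connects (`RS`) the vertex of `p` (`S p` or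
`fA p`) and `fB (π p)` (different vertices of the same class); and everything is injective and avoids `S`.
Count: the blocks by `CPY` (`A x y z` := edge with classes `e, e, σ e`), the functions `g` by the
reachability hypothesis; total `≥ 2 γ n^M`, minus the degenerate ones (`NIJ`). Absorption: the image of
`(fA, fB, g)` is the union of the blocks of `fA` and of the sets `{fB (π p)} ∪ g (p, ·)`; together with `S`
it is the union of the blocks of `fB` and of the sets `{p} ∪ g (p, ·)` (`til_biUnion`). -/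
def S_ABC : Prop := ∀ (q t m N X : ℕ) (β τ : ℝ), 1 ≤ t → 0 < N → 0 < β → 0 < τ → ∃ γ : ℝ, 0 < γ ∧
  ∃ n0 : ℕ, ∀ (V : Type) [Fintype V] [DecidableEq V] (E : Finset (Finset V)),
  n0 ≤ Fintype.card V → ∀ d ≤ q, ∀ (cl : V → Fin d) (σ : Fin d → Fin d),
  (∀ u v, u ≠ v → cl u = cl v → Rc E t (Fin m) β u v) →
  (∀ a, τ * nn V ^ 3 ≤
    cnt (fun p : V × V × V => ed E p.1 p.2.1 p.2.2 ∧ cl p.1 = a ∧ cl p.2.1 = a ∧ cl p.2.2 = σ a)) →
  ∀ (a : Fin d) (x y : Fin d → ℕ), ∑ e, x e = X → (∀ b : Fin d,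
    (if b = a then N else 0) + ∑ e, x e * (t * (2 * (if b = e then 1 else 0) + (if b = σ e then 1 else 0)))
      = ∑ e, y e * (t * (2 * (if b = e then 1 else 0) + (if b = σ e then 1 else 0)))) →
  ∀ S : Fin N → V, Function.Injective S → (∀ i, cl (S i) = a) →
  γ * nn V ^ (3 * t * X + (N + 3 * t * X) + (N + 3 * t * X) * m) ≤
    cnt (fun A : Fin (3 * t * X + (N + 3 * t * X) + (N + 3 * t * X) * m) → V =>
      Function.Injective A ∧ (∀ i j, A i ≠ S j) ∧ Til E t (univ.image A) ∧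
      Til E t (univ.image A ∪ univ.image S))

/-- FAM1 (exponential moment). Choose `ω : Fin L → α` uniformly. If `cnt (B S) ≥ γ |α|`, then
`∑_ω ∏_i (1/2 if B S (ω i), else 1) = (|α| - cnt (B S)/2)^L ≤ |α|^L (1 - γ/2)^L` (`Finset.prod_univ_sum` /
`Fintype.piFinset`), and an `ω` with less than `x` indices `i` with `B S (ω i)` contributes more than
`2^(-x)`. -/
def S_FAM1 : Prop := ∀ (α : Type) [Fintype α] (B : α → Prop) (L : ℕ) (γ x : ℝ), 0 ≤ γ → γ ≤ 1 → 0 ≤ x →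
  γ * nn α ≤ cnt B →
  cnt (fun ω : Fin L → α => cnt (fun i => B (ω i)) < x) ≤ (2 : ℝ) ^ x * (1 - γ / 2) ^ L * nn α ^ L

/-- FAM2 (few intersecting pairs). For `i < j` the number of `ω : Fin L → (Fin M → V)` such that the images
of `ω i` and `ω j` intersect is at most `M^2/n` times the number of all `ω`; sum over `i < j` and use
Markov's inequality. (`n = nn V`, `N = n^M` functions.) -/
def S_FAM2 : Prop := ∀ (V : Type) [Fintype V] [Nonempty V] (M L : ℕ) (x : ℝ), 0 < x →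
  cnt (fun ω : Fin L → (Fin M → V) =>
    x ≤ cnt (fun p : Fin L × Fin L => p.1 < p.2 ∧ ∃ i j, ω p.1 i = ω p.2 j)) * x ≤
  (L : ℝ) ^ 2 * M ^ 2 / nn V * (nn V ^ M) ^ L

/-- FAM (selection of a disjoint family). If `γ > 1` no `S` satisfies the condition (`cnt ≤ n^M`), take
`F = ∅`. Let `λ = min (μ/M) (γ/(128 M^2))`, `L = ⌊λ n⌋`. By `FAM1` (with `α = (Fin M → V)`, `x = γ L/8`:
`2^(γ/8) (1 - γ/2) ≤ exp(-γ/4)`), applied to the at most `n^N` functions `S` with many absorbers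
(`n^N exp(-γ L/4) < 1/4` for large `n`), and `FAM2` with `x = 4 λ^2 M^2 n` (at most a quarter of all `ω` is
bad), there is `ω` with at least `γ L/8 ≥ γ λ n/16` indices `i` with `Ab S (ω i)`, for all such `S`, and
less than `4 λ^2 M^2 n ≤ γ λ n/32` intersecting pairs. Delete `j` from every intersecting pair `i < j` and
all `i` with `ω i` not good. `F` is the image of the remaining indices (different indices have disjoint
nonempty images, `M ≥ 1`; so the map is injective on them). `γ' = γ λ/40`. -/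
def S_FAM : Prop := ∀ (M N : ℕ) (γ μ : ℝ), 1 ≤ M → 0 < γ → 0 < μ → ∃ γ' : ℝ, 0 < γ' ∧ ∃ n0 : ℕ,
  ∀ (V : Type) [Fintype V] [DecidableEq V] (Gd : (Fin M → V) → Prop)
  (Ab : (Fin N → V) → (Fin M → V) → Prop), (∀ S A, Ab S A → Gd A) → n0 ≤ Fintype.card V →
  ∃ F : Finset (Fin M → V), (∀ A ∈ F, Gd A) ∧
    (∀ A ∈ F, ∀ B ∈ F, A ≠ B → Disjoint (univ.image A) (univ.image B)) ∧
    (F.card : ℝ) * M ≤ μ * nn V ∧
    ∀ S, γ * nn V ^ M ≤ cnt (Ab S) → γ' * nn V ≤ cnt (fun A => A ∈ F ∧ Ab S A)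

/-- ABW (the absorbing set). `CLS`, `SIG`, `LAT`, `ABC`, and `FAM` with `Gd A` := injective and
`Til (image A)`, `Ab S A` := `Gd A`, `A` avoids `S`, `Til (image A ∪ image S)`. `W` is the union of the
images of the members of `F`; `|W| ≤ |F| M ≤ μ n`. `α = γ'`. Let `U` be disjoint from `W`, `|U| ≤ α n`.
In each of the `d ≤ q` classes take `⌊|U ∩ class|/N⌋` disjoint `N`-subsets of `U`; `U'` is the union of all
these sets, `|U \ U'| ≤ q N =: C`. There are at most `|U|/N ≤ γ' n` sets, and every one has at least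
`γ' n` absorbers in `F`: assign different absorbers greedily. Then `W ∪ U'` is the disjoint union of the sets
`image A ∪ S` (assigned) and `image A` (not assigned). (`N` is a positive multiple of `t`, but this is not
needed.) -/
def S_ABW : Prop := ∀ (t : ℕ) (c μ : ℝ), 2 ≤ t → 0 < c → c < 1 → 0 < μ → ∃ α : ℝ, 0 < α ∧ ∃ C : ℕ,
  ∃ n0 : ℕ, ∀ (V : Type) [Fintype V] [DecidableEq V] (E : Finset (Finset V)), Cod E c →
  n0 ≤ Fintype.card V → ∃ W : Finset V, (W.card : ℝ) ≤ μ * nn V ∧ ∀ U : Finset V, Disjoint U W →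
    (U.card : ℝ) ≤ α * nn V → ∃ U' ⊆ U, (U \ U').card ≤ C ∧ Til E t (W ∪ U')

end Pool.Agent.Q54.KP
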