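import Pool.Agent.Q54.KP.StmA

/-!
# Project KP, part B: almost perfect tilings (fractional tilings, doubling argument, nibble), final assembly

`n = nn V`.
-/

set_option autoImplicit false

namespace Pool.Agent.Q54.KP

open Finset

section
variable {V : Type} [DecidableEq V]

open Classical in
/-- load of the vertex `v` -/
noncomputable def ld {ι : Type} [Fintype ι] (K : Finset (ι → V)) (ω : (ι → V) → ℝ) (v : V) : ℝ :=
  ∑ κ ∈ K.filter (fun κ => ∃ i, κ i = v), ω κ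

open Classical in
/-- `max 0 (w x + w y + w z)` on the edges -/
noncomputable def ps (E : Finset (Finset V)) (w : V → ℝ) (x y z : V) : ℝ :=
  if ed E x y z then max 0 (w x + w y + w z) else 0

end

/-- hypotheses of the doubling argument for the weights `w` -/
structure DH {V : Type} [Fintype V] [DecidableEq V] (E : Finset (Finset V)) (c ε D δ : ℝ)
    (w : V → ℝ) : Prop where
  hy : Hy E c ε D
  c0 : 0 < c
  c1 : c < 1
  e0 : 0 < ε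
  e1 : ε ≤ c / 256
  lo : ∀ v, -1 ≤ w v
  sum : ∑ v, w v ≤ 0
  few : cnt (fun p : V × V × V => ed E p.1 p.2.1 p.2.2 ∧ w p.1 + w p.2.1 + w p.2.2 < -δ) ≤ δ * nn V ^ 3
  d0 : 0 < δ

/-- KKT. Minimise the continuous function `Φ ω = ∑ v, (1 - ld K ω v)^2` over the compact set
`0 ≤ ω ≤ cap` (functions vanishing outside `K`). Put `z v = 1 - ld K ω v`. Changing `ω κ` (`κ ∈ K`) to
`ω κ + s` changes `Φ` by `-2 s ∑ i, z (κ i) + s^2 |ι|` (`κ` injective). If `ω κ < cap` small `s > 0` are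
allowed, so `∑ i, z (κ i) ≤ 0`; if `ω κ > 0` small `s < 0` are allowed, so `∑ i, z (κ i) ≥ 0`. Hence
`0 ≤ ∑ κ ∈ K, ω κ * ∑ i, z (κ i) = ∑ v, z v * ld v = ∑ v, z v (1 - z v)`. Finally `Φ ω ≤ Φ 0 = n`. -/
def S_KKT : Prop := ∀ (V ι : Type) [Fintype V] [DecidableEq V] [Fintype ι] (K : Finset (ι → V)) (cap : ℝ),
  0 < cap → (∀ κ ∈ K, Function.Injective κ) → ∃ ω : (ι → V) → ℝ, (∀ κ, 0 ≤ ω κ ∧ ω κ ≤ cap) ∧
  (∀ κ, κ ∉ K → ω κ = 0) ∧ (∀ κ ∈ K, ω κ < cap → ∑ i, (1 - ld K ω (κ i)) ≤ 0) ∧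
  ∑ v, (1 - ld K ω v) ^ 2 ≤ ∑ v, (1 - ld K ω v) ∧ ∑ v, (1 - ld K ω v) ^ 2 ≤ nn V

/-- DIS (negative edges give negative copies). Suppose more than `δ n^3` ordered edges have weight sum
`< -δ`. Apply `CPY` to the relation `A x y z := ed E x y z ∧ w x + w y + w z < -δ`: at least `ρ' n^(3 t)`
copies `κ` satisfy `A (κ (0,i)) (κ (1,j)) (κ (2,k))` for all `i, j, k`, in particular for
`i = j = k = s`; so `∑ i, w (κ i) = ∑ s, (w (κ (0,s)) + w (κ (1,s)) + w (κ (2,s))) < - t δ < 0`. With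
`lam = ρ'/2` and `n ≥ 1` this is a contradiction. -/
def S_DIS : Prop := ∀ (t : ℕ) (δ : ℝ), 1 ≤ t → 0 < δ → ∃ lam : ℝ, 0 < lam ∧ ∃ n0 : ℕ,
  ∀ (V : Type) [Fintype V] [DecidableEq V] (E : Finset (Finset V)) (w : V → ℝ), n0 ≤ Fintype.card V →
  cnt (fun κ : Fin 3 × Fin t → V => Ck E t κ ∧ ∑ i, w (κ i) < 0) ≤ lam * nn V ^ (3 * t) →
  cnt (fun p : V × V × V => ed E p.1 p.2.1 p.2.2 ∧ w p.1 + w p.2.1 + w p.2.2 < -δ) ≤ δ * nn V ^ 3

/-- DU1 (edges with a large positive sum are rare). `a = ∑ |w| / n`. Summing over ordered edges: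
`∑ [ed] (w x + w y + w z) = 3 ∑ v, dg2 v * w v = 3 D ∑ w + 3 ∑ (dg2 v - D) w v ≤ 3 ε D ∑ |w| ≤ 6 ε a n^3`
(`(1 - ε) D ≤ dg2 ≤ n^2`, so `D ≤ 2 n^2`; `dg2` counts the pairs `(x, y)` with `ed E v x y`, and `ed` is
symmetric). The negative part of the sum is at most `δ n^3` (sums in `[-δ, 0)`) plus `3 δ n^3` (sums
`< -δ`, at least `-3` each). -/
def S_DU1 : Prop := ∀ (V : Type) [Fintype V] [DecidableEq V] (E : Finset (Finset V)) (c ε D δ : ℝ)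
  (w : V → ℝ), DH E c ε D δ w →
  ∑ x, ∑ y, ∑ z, ps E w x y z ≤ (6 * ε * (∑ v, |w v|) / nn V + 4 * δ) * nn V ^ 3

/-- DU2 (no very large weights in the mean). `a = ∑ |w| / n`, `δ ≤ c a/256`, `a > 0`.
(1) Let `b v = cnt (p : V × V, ed E v p.1 p.2 ∧ w v + w p.1 + w p.2 < -δ)`; `∑ b v ≤ δ n^3`. If
`b v ≤ (c/4) n^2`: `dg2 v ≥ (1 - ε) 2 c n^2 ≥ c n^2`, so at least `(3c/4) n^2` pairs satisfy
`w x + w y ≥ -δ - w v`, and `(3c/4) n^2 (-w v - δ) ≤ ∑_{x,y} (|w x| + |w y|) = 2 a n^2`, so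
`w v ≥ -4 a/c`. The other vertices (at most `4 δ n/c` of them) have `w v ≥ -1`. So
`∑_{w v < -8a/c} |w v| ≤ 4 δ n/c ≤ a n/64`.
(2) If `w v > 8 a/c`: `∑_{x,y} [ed E v x y] (w v + w x + w y) ≥ dg2 v * w v - 2 a n^2 ≥
c n^2 w v - (c/4) n^2 w v`, so by `DU1` `(3c/4) n^2 ∑_{w v > 8a/c} w v ≤ (6 ε a + 4 δ) n^3`, i.e.
`∑_{w v > 8 a/c} w v ≤ (8 ε a/c + 6 δ/c) n ≤ a n/16`.
(3) `∑ |w| ≤ (a/2) n + ∑_{a/2 ≤ |w| ≤ 8a/c} |w| + a n/64 + a n/16`, so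
`cnt (a/2 ≤ |w v| ≤ 8 a/c) ≥ (3/8)(c/8) n ≥ (c/32) n`. -/
def S_DU2 : Prop := ∀ (V : Type) [Fintype V] [DecidableEq V] (E : Finset (Finset V)) (c ε D δ a : ℝ)
  (w : V → ℝ), DH E c ε D δ w → 0 < a → ∑ v, |w v| = a * nn V → δ ≤ c * a / 256 → 0 < nn V →
  c / 32 * nn V ≤ cnt (fun v => a / 2 ≤ |w v| ∧ |w v| ≤ 8 * a / c)

/-- DU3 (pigeonhole). Divide `[-8a/c, 8a/c]` into at most `512/c` cells of length `≤ a/16`
(`⌈256/c⌉ ≤ 512/c` cells); one of them contains at least `(c/32)/(512/c) n = c^2 n/16384` of the vertices of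
`DU2`; take for `ξ` the weight of one of these vertices. -/
def S_DU3 : Prop := ∀ (V : Type) [Fintype V] (c a : ℝ) (w : V → ℝ), 0 < c → c < 1 → 0 < a → 0 < nn V →
  c / 32 * nn V ≤ cnt (fun v => a / 2 ≤ |w v| ∧ |w v| ≤ 8 * a / c) →
  ∃ ξ : ℝ, a / 2 ≤ |ξ| ∧ c ^ 2 / 16384 * nn V ≤ cnt (fun v => |w v - ξ| ≤ a / 16)

/-- DU4 (doubling step). Let `S` be the set of `v` with `|w v - ξ| ≤ r`, `|S| ≥ c1 n`. The number of
`(x, y, z)` with `x ≠ y` in `S`, `ed E x y z` is at least `|S| (|S| - 1) c n`; at most `η n^3 ≤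
(c1^2 c/4) n^3 ≤ |S| (|S| - 1) c n/2` of them (`n ≥ 2/c1`, so `|S| (|S|-1) ≥ |S|^2/2`) are bad (sum `< -θ` or
`> θ`). So at least `c n/2` vertices `z` lie in a triple which is not bad, and then
`|w z + 2 ξ| ≤ 2 r + θ`. -/
def S_DU4 : Prop := ∀ (V : Type) [Fintype V] [DecidableEq V] (E : Finset (Finset V)) (c c1 η ξ r θ : ℝ)
  (w : V → ℝ), 0 < c → 0 < c1 → η ≤ c1 ^ 2 * c / 4 → 2 ≤ c1 * nn V → Cod E c →
  cnt (fun p : V × V × V => ed E p.1 p.2.1 p.2.2 ∧ θ < |w p.1 + w p.2.1 + w p.2.2|) ≤ η * nn V ^ 3 →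
  c1 * nn V ≤ cnt (fun v => |w v - ξ| ≤ r) →
  c / 2 * nn V ≤ cnt (fun v => |w v - (-2 * ξ)| ≤ 2 * r + θ)

/-- DUA (the weights are small). Let `c1 = c^2/16384`, `m` with `2^m > 6/c`, `ε0 = min (c/256)
(c1^2 c/2048)`, and for given `A1`: `δ = min (ε0 A1/…)`: small enough that `δ ≤ c A1/256`, `4 δ ≤ ε0 A1`,
`δ ≤ c1^2 c/8`, `δ ≤ A1/32`. Suppose `a = ∑ |w|/n > A1`. Put `θ = a/32`. By `DU1` and Markov the number of
ordered edges with sum `> θ` is at most `(6 ε a + 4 δ) n^3/θ ≤ 7 ε·32 n^3 ≤ 224 ε n^3`; with the edges of sum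
`< -δ` (`δ ≤ θ`) at most `η n^3`, `η = 224 ε + δ ≤ c1^2 c/4`. `DU2`, `DU3` give `ξ`; iterate `DU4` (`c1 ≤ c/2`):
for all `m`, with `ξ_m = (-2)^m ξ` and `r_m = 2^m (a/16 + a/32) - a/32`, at least `c1 n` (for `m ≥ 1` at least
`(c/2) n`) vertices satisfy `|w v - ξ_m| ≤ r_m`, so `|w v| ≥ 2^m (a/2 - 3a/32) ≥ 2^m a/3`. Then
`a n = ∑ |w| ≥ (c/2) n 2^m a/3`, i.e. `2^m ≤ 6/c`, a contradiction. -/
def S_DUA : Prop := ∀ c : ℝ, 0 < c → c < 1 → ∃ ε0 : ℝ, 0 < ε0 ∧ ε0 ≤ c / 256 ∧ ∀ A1 : ℝ, 0 < A1 →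
  ∃ δ : ℝ, 0 < δ ∧ ∃ n0 : ℕ, ∀ (V : Type) [Fintype V] [DecidableEq V] (E : Finset (Finset V)) (D : ℝ)
  (w : V → ℝ), n0 ≤ Fintype.card V → DH E c ε0 D δ w → ∑ v, |w v| ≤ A1 * nn V

/-- FRC (almost perfect fractional tilings with bounded weights). `ε0` from `DUA`. Given `α`: `A1` with
`(1 + 3 t) A1 ≤ α`; `δ` from `DUA`; `lam` from `DIS`; `Λ = 1/lam`. Apply `KKT` with `K` := all copies
(`Ck`), `cap = Λ/n^(3t-1)`; `z v = 1 - ld v`, `w = - z`. `w ≥ -1` since loads are `≥ 0`;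
`∑ w = - ∑ z ≤ - ∑ z^2 ≤ 0`. A copy with `∑ i, w (κ i) < 0` has `ω κ = cap`; since
`3 t ∑ ω = ∑ ld = ∑ (1 - z) ≤ n + ∑ |z| ≤ 2 n` (Cauchy-Schwarz, `∑ z^2 ≤ n`) there are at most
`2 n/(3 t cap) ≤ lam n^(3 t)` of them. `DIS`, `DUA`: `∑ |z| ≤ A1 n`. Finally put
`ω' κ = ω κ ∏ i, 1/max 1 (ld (κ i))`. Loads: `ld' v ≤ ld v/max 1 (ld v) ≤ 1`. Loss:
`1 - ∏ a_i ≤ ∑ (1 - a_i)`, so `∑ ω - ∑ ω' ≤ ∑ v, ld v (1 - 1/max 1 (ld v)) = ∑ v, max 0 (ld v - 1) ≤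
∑ |z| ≤ A1 n`, and `3 t ∑ ω' ≥ ∑ ld - 3 t A1 n ≥ n - A1 n - 3 t A1 n`. -/
def S_FRC : Prop := ∀ (t : ℕ) (c : ℝ), 1 ≤ t → 0 < c → c < 1 → ∃ ε0 : ℝ, 0 < ε0 ∧ ∀ α : ℝ, 0 < α →
  ∃ Lam : ℝ, 0 < Lam ∧ ∃ n0 : ℕ, ∀ (V : Type) [Fintype V] [DecidableEq V] (E : Finset (Finset V))
  (D : ℝ) (K : Finset (Fin 3 × Fin t → V)), n0 ≤ Fintype.card V → Hy E c ε0 D →
  (∀ κ, κ ∈ K ↔ Ck E t κ) → ∃ ω : (Fin 3 × Fin t → V) → ℝ,
    (∀ κ, 0 ≤ ω κ ∧ ω κ * nn V ^ (3 * t - 1) ≤ Lam) ∧ (∀ κ, κ ∉ K → ω κ = 0) ∧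
    (∀ v, ld K ω v ≤ 1) ∧ (1 - α) * nn V ≤ 3 * t * ∑ κ, ω κ

/-- HYM (monotonicity). `Hy E c ε D` with `ε ≤ ε'`, `c' ≤ c` implies `Hy E c' ε' D` (`D ≥ 0` by `Dlo`,
`c ≥ 0`). -/
def S_HYM : Prop := ∀ (V : Type) [Fintype V] [DecidableEq V] (E : Finset (Finset V)) (c c' ε ε' D : ℝ),
  0 ≤ c' → c' ≤ c → ε ≤ ε' → Hy E c ε D → Hy E c' ε' D

/-- NER (almost perfect tilings). `FRC` with `α/2` and the weighted nibble (file
`Pool/Agent/H248/Nib.lean`: `H248.Nib.nibble_T : H115R4.nibble`) with `r = 3 t`, `θ = α/2`, index type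
`Fin 3 × Fin t → V`, `A κ = univ.image κ` and the weights of `FRC`. Codegrees: at most `(3 t)^2 n^(3t-2)`
functions take the values `u ≠ v`, so the codegree is at most `9 t^2 Λ/n`, small for large `n`; weights
`≤ Λ/n^(3t-1)`. The matching consists of copies (`ω > 0`), all of size `3 t`, and
`3 t |M| ≥ (1 - θ) 3 t ∑ ω ≥ (1 - α) n`. `P = M.image (univ.image ·)`. -/
def S_NER : Prop := ∀ (t : ℕ) (c : ℝ), 1 ≤ t → 0 < c → c < 1 → ∃ ε0 : ℝ, 0 < ε0 ∧ ∀ α : ℝ, 0 < α →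
  ∃ n0 : ℕ, ∀ (V : Type) [Fintype V] [DecidableEq V] (E : Finset (Finset V)) (D : ℝ),
  n0 ≤ Fintype.card V → Hy E c ε0 D → ∃ X : Finset V, Til E t X ∧ (1 - α) * nn V ≤ X.card

/-- SUB (deleting a small set). `E' := the edges inside V \ W`, on the type `{v // v ∉ W}`. If
`|W| ≤ μ n`, `μ ≤ min (1/2) (c ε/4)`, `n ≥ 1`: the new number of vertices `n'` satisfies
`n - μ n ≤ n' ≤ n`; pair degrees `≥ (c - μ) n ≥ (c/2) n ≥ (c/2) n'`; `dg2' v ≤ dg2 v ≤ (1 + ε) D ≤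
(1 + 2 ε) D` and `dg2' v ≥ dg2 v - 2 μ n^2 ≥ (1 - ε) D - 2 μ n^2 ≥ (1 - 2 ε) D` as `2 μ n^2 ≤ ε c n^2/2 ≤
ε D`; `2 (c/2) n'^2 ≤ D`. -/
def S_SUB : Prop := ∀ (V : Type) [Fintype V] [DecidableEq V] (E : Finset (Finset V)) (c ε D μ : ℝ)
  (W : Finset V), 0 < c → c < 1 → 0 < ε → ε ≤ 1 / 4 → μ ≤ 1 / 2 → μ ≤ c * ε / 4 →
  (W.card : ℝ) ≤ μ * nn V → Hy E c ε D →
  Hy (V := {v // v ∉ W}) (univ.filter (fun e => e.map (Function.Embedding.subtype _) ∈ E))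
    (c / 2) (2 * ε) D

/-- TIM. A tiling in the induced 3-graph on `{v // v ∉ W}` is a tiling in `E` (compose the copies with the
embedding; `univ.image (f ∘ κ) = (univ.image κ).map f`). -/
def S_TIM : Prop := ∀ (V : Type) [Fintype V] [DecidableEq V] (E : Finset (Finset V)) (t : ℕ)
  (W : Finset V) (X : Finset {v // v ∉ W}),
  Til (univ.filter (fun e => e.map (Function.Embedding.subtype _) ∈ E)) t X →
  Til E t (X.map (Function.Embedding.subtype _))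

/-- KPK (the theorem for the complete tripartite 3-graphs). `ε1` from `NER` for `c/2`,
`ε = min (1/4) (ε1/2)`; `μ = min (1/2) (c ε/4)`; `α, C` from `ABW` for `μ`; `NER` for `c/2` and `α/2`.
Take `W` from `ABW`; `SUB`, `NER` (with `HYM`), `TIM`: a tiled set `X` disjoint from `W` with
`|V \ W \ X| ≤ α n`; `U := V \ W \ X`; `U'` from `ABW`; `X ∪ W ∪ U'` is tiled (`til_union`) and misses at
most `C` vertices. For `n < n0` use `X = ∅` (`C ≥ n0`). -/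
def S_KPK : Prop := ∀ (t : ℕ) (c : ℝ), 2 ≤ t → 0 < c → c < 1 → ∃ ε : ℝ, 0 < ε ∧ ∃ C : ℕ,
  ∀ (V : Type) [Fintype V] [DecidableEq V] (E : Finset (Finset V)) (D : ℝ), Hy E c ε D →
  ∃ X : Finset V, Til E t X ∧ (univ \ X).card ≤ C

/-- TRI (tiling a copy of the complete tripartite 3-graph with parts of size `2 h` by 6 copies of `H`,
`h = |W|`). Let `f : W → Fin 3` be the tripartition, `h_i` the number of `w` with `f w = i`,
`h_0 + h_1 + h_2 = h`. For `j : Fin 3` and `s : Fin 2` the copy `(j, s)` puts the part `i` of `H` into the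
part `i + j` of the tile; the part `k` of the tile receives for each `s` exactly
`h_k + h_{k-1} + h_{k-2} = h` vertices. So fix bijections
`e_k : Fin 2 × W ≃ Fin (2 h)` (`(s, w)` with `f w = k - j` is put, in the copy `(j, s)`, at the place
`e_k (s, w)` of the part `k`; for given `k` every `(s, w)` is used by exactly one `j`, namely
`j = k - f w`). I.e. `φ_{j,s} w = κ (f w + j, e (s, w))` with one bijection `e : Fin 2 × W ≃ Fin (2 h)`.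
An edge of `H` has one vertex in each part, so its image is an edge `{κ (0, ·), κ (1, ·), κ (2, ·)}`
(permuted). The images of the six copies partition the image of `κ`. -/
def S_TRI : Prop := ∀ (W V : Type) [Fintype W] [DecidableEq W] [Nonempty W] [Fintype V] [DecidableEq V]
  (H : Finset (Finset W)) (E : Finset (Finset V)) (κ : Fin 3 × Fin (2 * Fintype.card W) → V),
  Tripartite H → Ck E (2 * Fintype.card W) κ →
  ∃ P : Finset (W ↪ V), (∀ φ ∈ P, IsCopy H E φ) ∧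
    (∀ φ ∈ P, ∀ ψ ∈ P, φ ≠ ψ → Disjoint (univ.map φ) (univ.map ψ)) ∧
    P.biUnion (fun φ => univ.map φ) = univ.image κ

/-- DGR (translation of the degree conditions). `dg2 E v = 2 deg E v` (each edge `e ∋ v`, `|e| = 3`, gives the
two ordered pairs of its other vertices) and `cnt (fun z => ed E x y z) = pdeg E x y` for `x ≠ y`. -/
def S_DGR : Prop := ∀ (V : Type) [Fintype V] [DecidableEq V] (E : Finset (Finset V)),
  (∀ e ∈ E, e.card = 3) → (∀ v, dg2 E v = 2 * (deg E v : ℝ)) ∧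
  ∀ x y, x ≠ y → cnt (fun z => ed E x y z) = (pdeg E x y : ℝ)

/-- FIN (the result). `t = 2 |W|`, `ε, C` from `KPK`. `DGR` with `D = 2 d`. `TRI` in every tile of the
tiling of `X`; the union of all these families of copies (copies from different tiles have disjoint
images, `W` is nonempty). -/
def S_FIN : Prop := ∀ (W : Type) [Fintype W] [DecidableEq W] [Nonempty W] (H : Finset (Finset W)),
  Tripartite H → ∀ c : ℝ, 0 < c → c < 1 → ∃ ε : ℝ, 0 < ε ∧ ∃ C : ℕ,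
  ∀ (V : Type) [Fintype V] [DecidableEq V] (E : Finset (Finset V)) (d : ℝ),
  (∀ e ∈ E, e.card = 3) → c * (Fintype.card V : ℝ) ^ 2 ≤ d →
  (∀ v, (1 - ε) * d ≤ (deg E v : ℝ) ∧ (deg E v : ℝ) ≤ (1 + ε) * d) →
  (∀ u v, u ≠ v → c * (Fintype.card V : ℝ) ≤ (pdeg E u v : ℝ)) → Packs H E C

end Pool.Agent.Q54.KP
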